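import Pool.Agent.Helper32_Poly.Wrap

/-!
# Composition of polynomial-time computable functions (Mathlib's `TM2` model)
-/

namespace Pool.Agent.Helper32_Poly

open Turing Function Computability StateTransition

set_option backward.isDefEq.respectTransparency false

theorem poly_eval_mono (p : Polynomial ℕ) {a b : ℕ} (h : a ≤ b) : p.eval a ≤ p.eval b := by
  rw [Polynomial.eval_eq_sum, Polynomial.eval_eq_sum]
  unfold Polynomial.sum
  apply Finset.sum_le_sum
  intro i _
  exact Nat.mul_le_mul_left _ (Nat.pow_le_pow_left h i)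

section Size

variable {K : Type} [DecidableEq K] [Fintype K] {Γ : K → Type} {Λ σ : Type}

/-- maximal number of pushes in a statement -/
def pushes : TM2.Stmt Γ Λ σ → ℕ
  | .push _ _ q => pushes q + 1
  | .peek _ _ q => pushes q
  | .pop _ _ q => pushes q
  | .load _ q => pushes q
  | .branch _ q₁ q₂ => pushes q₁ + pushes q₂
  | .goto _ => 0
  | .halt => 0

theorem stepAux_size : ∀ (q : TM2.Stmt Γ Λ σ) (v : σ) (S : ∀ k, List (Γ k)),
    totalSize (TM2.stepAux q v S).stk ≤ totalSize S + pushes q
  | .push k f q, v, S => by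
    have h := stepAux_size q v (update S k (f v :: S k))
    have := totalSize_update S k (f v :: S k)
    simp only [List.length_cons] at this
    simp only [TM2.stepAux, pushes]
    omega
  | .peek k f q, v, S => by
    have h := stepAux_size q (f v (S k).head?) S
    simpa only [TM2.stepAux, pushes] using h
  | .pop k f q, v, S => by
    have h := stepAux_size q (f v (S k).head?) (update S k (S k).tail)
    have := totalSize_update S k (S k).tail
    simp only [List.length_tail] at this
    simp only [TM2.stepAux, pushes]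
    omega
  | .load f q, v, S => by
    have h := stepAux_size q (f v) S
    simpa only [TM2.stepAux, pushes] using h
  | .branch c q₁ q₂, v, S => by
    have h1 := stepAux_size q₁ v S
    have h2 := stepAux_size q₂ v S
    simp only [TM2.stepAux, pushes]
    cases c v
    · simp only [cond_false]; omega
    · simp only [cond_true]; omega
  | .goto _, v, S => by simp [TM2.stepAux, pushes]
  | .halt, v, S => by simp [TM2.stepAux, pushes]

theorem steps_size [Fintype Λ] (M : Λ → TM2.Stmt Γ Λ σ) :
    ∀ (n : ℕ) (a b : TM2.Cfg Γ Λ σ), Steps M n a b →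
    totalSize b.stk ≤ totalSize a.stk + (∑ l, pushes (M l)) * n
  | 0, a, b, h => by
    have : some a = some b := h
    cases this
    omega
  | n + 1, a, b, h => by
    unfold Steps at h
    rw [Function.iterate_succ_apply] at h
    have h1 : (flip bind (TM2.step M)) (some a) = TM2.step M a := rfl
    rw [h1] at h
    rcases h2 : TM2.step M a with _ | c
    · rw [h2] at h
      exfalso
      have : ∀ m, (flip bind (TM2.step M))^[m] none = none := by
        intro m
        induction m with
        | zero => rfl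
        | succ m ih => rw [Function.iterate_succ_apply]; exact ih
      rw [this] at h
      cases h
    · rw [h2] at h
      have h3 := steps_size M n c b h
      obtain ⟨l, v, S⟩ := a
      cases l with
      | none => cases h2
      | some l =>
        have h4 : c = TM2.stepAux (M l) v S := by
          simp only [TM2.step, Option.some.injEq] at h2
          exact h2.symm
        have h5 := stepAux_size (M l) v S
        rw [← h4] at h5
        have h6 : pushes (M l) ≤ ∑ l, pushes (M l) :=
          Finset.single_le_sum (f := fun l => pushes (M l)) (fun _ _ => Nat.zero_le _)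
            (Finset.mem_univ l)
        simp only
        rw [Nat.mul_add, Nat.mul_one]
        omega

end Size

section Comp

variable (tm₁ tm₂ : FinTM2)

/-- stacks of the composite -/
abbrev CK : Type := Option (tm₁.K ⊕ tm₂.K)

instance : DecidableEq (CK tm₁ tm₂) :=
  letI := tm₁.kDecidableEq
  letI := tm₂.kDecidableEq
  inferInstanceAs (DecidableEq (Option (tm₁.K ⊕ tm₂.K)))

instance : Fintype (CK tm₁ tm₂) :=
  @instFintypeOption _ (@instFintypeSum _ _ tm₁.kFin tm₂.kFin)

/-- alphabets of the composite -/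
abbrev CG : CK tm₁ tm₂ → Type
  | none => tm₂.Γ tm₂.k₀
  | some (.inl k) => tm₁.Γ k
  | some (.inr k) => tm₂.Γ k

/-- labels of the composite -/
abbrev CL : Type := (tm₁.Λ ⊕ tm₂.Λ) ⊕ Bool

/-- memory of the composite -/
abbrev CS : Type := (tm₁.σ × tm₂.σ) × Option (tm₂.Γ tm₂.k₀)

/-- stack contents of the composite -/
def mix (S₁ : ∀ k, List (tm₁.Γ k)) (S₂ : ∀ k, List (tm₂.Γ k)) (T : List (tm₂.Γ tm₂.k₀)) :
    ∀ k, List (CG tm₁ tm₂ k)
  | none => T
  | some (.inl k) => S₁ k
  | some (.inr k) => S₂ k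

theorem update_mix_none (S₁ S₂ T l) :
    update (mix tm₁ tm₂ S₁ S₂ T) none l = mix tm₁ tm₂ S₁ S₂ l := by
  funext k
  match k with
  | none => exact Function.update_self _ _ _
  | some (.inl k) => exact Function.update_of_ne (by simp) _ _
  | some (.inr k) => exact Function.update_of_ne (by simp) _ _

theorem update_mix_inl (S₁ S₂ T) (k : tm₁.K) (l) :
    update (mix tm₁ tm₂ S₁ S₂ T) (some (.inl k)) l =
      mix tm₁ tm₂ (@update tm₁.K _ tm₁.kDecidableEq S₁ k l) S₂ T := by
  let _ := tm₁.kDecidableEq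
  funext k'
  match k' with
  | none => exact Function.update_of_ne (by simp) _ _
  | some (.inl k') =>
    by_cases h : k' = k
    · subst h
      exact (Function.update_self _ _ _).trans (Function.update_self k' l S₁).symm
    · have h1 := Function.update_of_ne (a := (some (.inl k') : CK tm₁ tm₂))
        (a' := some (.inl k)) (by simp [h]) l (mix tm₁ tm₂ S₁ S₂ T)
      have h2 := Function.update_of_ne h l S₁
      exact h1.trans h2.symm
  | some (.inr k') => exact Function.update_of_ne (by simp) _ _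

theorem update_mix_inr (S₁ S₂ T) (k : tm₂.K) (l) :
    update (mix tm₁ tm₂ S₁ S₂ T) (some (.inr k)) l =
      mix tm₁ tm₂ S₁ (@update tm₂.K _ tm₂.kDecidableEq S₂ k l) T := by
  let _ := tm₂.kDecidableEq
  funext k'
  match k' with
  | none => exact Function.update_of_ne (by simp) _ _
  | some (.inl k') => exact Function.update_of_ne (by simp) _ _
  | some (.inr k') =>
    by_cases h : k' = k
    · subst h
      exact (Function.update_self _ _ _).trans (Function.update_self k' l S₂).symm
    · have h1 := Function.update_of_ne (a := (some (.inr k') : CK tm₁ tm₂))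
        (a' := some (.inr k)) (by simp [h]) l (mix tm₁ tm₂ S₁ S₂ T)
      have h2 := Function.update_of_ne h l S₂
      exact h1.trans h2.symm

/-- code of the first machine inside the composite -/
def lift₁ : TM2.Stmt tm₁.Γ tm₁.Λ tm₁.σ → TM2.Stmt (CG tm₁ tm₂) (CL tm₁ tm₂) (CS tm₁ tm₂)
  | .push k f q => .push (some (.inl k)) (fun v => f v.1.1) (lift₁ q)
  | .peek k f q => .peek (some (.inl k)) (fun v o => ((f v.1.1 o, v.1.2), v.2)) (lift₁ q)
  | .pop k f q => .pop (some (.inl k)) (fun v o => ((f v.1.1 o, v.1.2), v.2)) (lift₁ q)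
  | .load f q => .load (fun v => ((f v.1.1, v.1.2), v.2)) (lift₁ q)
  | .branch c q₁ q₂ => .branch (fun v => c v.1.1) (lift₁ q₁) (lift₁ q₂)
  | .goto f => .goto (fun v => .inl (.inl (f v.1.1)))
  | .halt => .goto (fun _ => .inr false)

/-- code of the second machine inside the composite -/
def lift₂ : TM2.Stmt tm₂.Γ tm₂.Λ tm₂.σ → TM2.Stmt (CG tm₁ tm₂) (CL tm₁ tm₂) (CS tm₁ tm₂)
  | .push k f q => .push (some (.inr k)) (fun v => f v.1.2) (lift₂ q)
  | .peek k f q => .peek (some (.inr k)) (fun v o => ((v.1.1, f v.1.2 o), v.2)) (lift₂ q)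
  | .pop k f q => .pop (some (.inr k)) (fun v o => ((v.1.1, f v.1.2 o), v.2)) (lift₂ q)
  | .load f q => .load (fun v => ((v.1.1, f v.1.2), v.2)) (lift₂ q)
  | .branch c q₁ q₂ => .branch (fun v => c v.1.2) (lift₂ q₁) (lift₂ q₂)
  | .goto f => .goto (fun v => .inl (.inr (f v.1.2)))
  | .halt => .halt

/-- label embedding for the first machine -/
def lab₁ : Option tm₁.Λ → CL tm₁ tm₂
  | some l => .inl (.inl l)
  | none => .inr false

/-- label embedding for the second machine -/
def lab₂ : Option tm₂.Λ → Option (CL tm₁ tm₂)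
  | some l => some (.inl (.inr l))
  | none => none

/-- configurations of the first machine inside the composite -/
def emb₁ (c : TM2.Cfg tm₁.Γ tm₁.Λ tm₁.σ) : TM2.Cfg (CG tm₁ tm₂) (CL tm₁ tm₂) (CS tm₁ tm₂) :=
  ⟨some (lab₁ tm₁ tm₂ c.l), ((c.var, tm₂.initialState), none),
    mix tm₁ tm₂ c.stk (fun _ => []) []⟩

/-- configurations of the second machine inside the composite -/
def emb₂ (c : TM2.Cfg tm₂.Γ tm₂.Λ tm₂.σ) : TM2.Cfg (CG tm₁ tm₂) (CL tm₁ tm₂) (CS tm₁ tm₂) :=
  ⟨lab₂ tm₁ tm₂ c.l, ((tm₁.initialState, c.var), none),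
    mix tm₁ tm₂ (fun _ => []) c.stk []⟩

theorem stepAux_lift₁ : ∀ (q : TM2.Stmt tm₁.Γ tm₁.Λ tm₁.σ) (v : tm₁.σ)
    (S : ∀ k, List (tm₁.Γ k)),
    TM2.stepAux (lift₁ tm₁ tm₂ q) ((v, tm₂.initialState), none)
      (mix tm₁ tm₂ S (fun _ => []) []) =
      emb₁ tm₁ tm₂ (@TM2.stepAux _ _ _ _ tm₁.kDecidableEq q v S)
  | .push k f q, v, S => by
    simp only [lift₁, TM2.stepAux]
    rw [update_mix_inl]
    exact stepAux_lift₁ q v _
  | .peek k f q, v, S => by
    simp only [lift₁, TM2.stepAux]
    exact stepAux_lift₁ q _ _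
  | .pop k f q, v, S => by
    simp only [lift₁, TM2.stepAux]
    rw [update_mix_inl]
    exact stepAux_lift₁ q _ _
  | .load f q, v, S => by
    simp only [lift₁, TM2.stepAux]
    exact stepAux_lift₁ q _ _
  | .branch c q₁ q₂, v, S => by
    simp only [lift₁, TM2.stepAux]
    cases c v
    · simp only [cond_false]
      exact stepAux_lift₁ q₂ _ _
    · simp only [cond_true]
      exact stepAux_lift₁ q₁ _ _
  | .goto f, v, S => rfl
  | .halt, v, S => rfl

theorem stepAux_lift₂ : ∀ (q : TM2.Stmt tm₂.Γ tm₂.Λ tm₂.σ) (v : tm₂.σ)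
    (S : ∀ k, List (tm₂.Γ k)),
    TM2.stepAux (lift₂ tm₁ tm₂ q) ((tm₁.initialState, v), none)
      (mix tm₁ tm₂ (fun _ => []) S []) =
      emb₂ tm₁ tm₂ (@TM2.stepAux _ _ _ _ tm₂.kDecidableEq q v S)
  | .push k f q, v, S => by
    simp only [lift₂, TM2.stepAux]
    rw [update_mix_inr]
    exact stepAux_lift₂ q v _
  | .peek k f q, v, S => by
    simp only [lift₂, TM2.stepAux]
    exact stepAux_lift₂ q _ _
  | .pop k f q, v, S => by
    simp only [lift₂, TM2.stepAux]
    rw [update_mix_inr]
    exact stepAux_lift₂ q _ _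
  | .load f q, v, S => by
    simp only [lift₂, TM2.stepAux]
    exact stepAux_lift₂ q _ _
  | .branch c q₁ q₂, v, S => by
    simp only [lift₂, TM2.stepAux]
    cases c v
    · simp only [cond_false]
      exact stepAux_lift₂ q₂ _ _
    · simp only [cond_true]
      exact stepAux_lift₂ q₁ _ _
  | .goto f, v, S => rfl
  | .halt, v, S => rfl

open Classical in
/-- push an optional letter (nothing to do if the alphabet is empty) -/
noncomputable def pushOpt {K : Type} {Γ : K → Type} {Λ σ : Type} (k : K)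
    (f : σ → Option (Γ k)) (q : TM2.Stmt Γ Λ σ) : TM2.Stmt Γ Λ σ :=
  if h : Nonempty (Γ k) then .push k (fun v => (f v).getD (Classical.choice h)) q else q

theorem stepAux_pushOpt {K : Type} [DecidableEq K] {Γ : K → Type} {Λ σ : Type} (k : K)
    (f : σ → Option (Γ k)) (q : TM2.Stmt Γ Λ σ) (v : σ) (S : ∀ k, List (Γ k)) (a : Γ k)
    (h : f v = some a) :
    TM2.stepAux (pushOpt k f q) v S = TM2.stepAux q v (update S k (a :: S k)) := by
  have hn : Nonempty (Γ k) := ⟨a⟩
  simp [pushOpt, hn, TM2.stepAux, h]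

variable (tr : tm₁.Γ tm₁.k₁ → tm₂.Γ tm₂.k₀)

/-- the composite program -/
noncomputable def CM : CL tm₁ tm₂ → TM2.Stmt (CG tm₁ tm₂) (CL tm₁ tm₂) (CS tm₁ tm₂)
  | .inl (.inl l) => lift₁ tm₁ tm₂ (tm₁.m l)
  | .inl (.inr l) => lift₂ tm₁ tm₂ (tm₂.m l)
  | .inr false => .pop (some (.inl tm₁.k₁)) (fun v o => (v.1, Option.map tr o))
      (.branch (fun v => v.2.isSome)
        (pushOpt none (fun v => v.2) (.goto (fun _ => .inr false)))
        (.goto (fun _ => .inr true)))
  | .inr true => .pop none (fun v o => (v.1, o))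
      (.branch (fun v => v.2.isSome)
        (pushOpt (some (.inr tm₂.k₀)) (fun v => v.2) (.goto (fun _ => .inr true)))
        (.goto (fun _ => .inl (.inr tm₂.main))))

/-- the composite machine -/
noncomputable def compMachine : FinTM2 where
  K := CK tm₁ tm₂
  kFin := inferInstance
  k₀ := some (.inl tm₁.k₀)
  k₁ := some (.inr tm₂.k₁)
  Γ := CG tm₁ tm₂
  Λ := CL tm₁ tm₂
  main := .inl (.inl tm₁.main)
  ΛFin := @instFintypeSum _ _ (@instFintypeSum _ _ tm₁.ΛFin tm₂.ΛFin) inferInstance
  σ := CS tm₁ tm₂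
  initialState := ((tm₁.initialState, tm₂.initialState), none)
  σFin := @instFintypeProd _ _ (@instFintypeProd _ _ tm₁.σFin tm₂.σFin)
    (@instFintypeOption _ tm₂.Γk₀Fin)
  Γk₀Fin := tm₁.Γk₀Fin
  m := CM tm₁ tm₂ tr

theorem iter_none {α : Type} (f : α → Option α) (m : ℕ) : (flip bind f)^[m] none = none := by
  induction m with
  | zero => rfl
  | succ m ih => rw [Function.iterate_succ_apply]; exact ih

theorem steps_emb₁ : ∀ (n : ℕ) (a b : TM2.Cfg tm₁.Γ tm₁.Λ tm₁.σ),
    (flip bind tm₁.step)^[n] (some a) = some b →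
    Steps (CM tm₁ tm₂ tr) n (emb₁ tm₁ tm₂ a) (emb₁ tm₁ tm₂ b)
  | 0, a, b, h => by
    have : some a = some b := h
    cases this
    exact Steps.refl _ _
  | n + 1, a, b, h => by
    rw [Function.iterate_succ_apply] at h
    have h1 : (flip bind tm₁.step) (some a) = tm₁.step a := rfl
    rw [h1] at h
    rcases h2 : tm₁.step a with _ | c
    · rw [h2] at h
      exfalso
      rw [iter_none] at h
      cases h
    · rw [h2] at h
      have h3 := steps_emb₁ n c b h
      rw [Nat.add_comm]
      refine Steps.trans (Steps.one ?_) h3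
      obtain ⟨l, v, S⟩ := a
      cases l with
      | none => cases h2
      | some l =>
        have h4 : c = @TM2.stepAux _ _ _ _ tm₁.kDecidableEq (tm₁.m l) v S := by
          exact (Option.some.inj h2).symm
        rw [h4, ← stepAux_lift₁]
        rfl

theorem steps_emb₂ : ∀ (n : ℕ) (a b : TM2.Cfg tm₂.Γ tm₂.Λ tm₂.σ),
    (flip bind tm₂.step)^[n] (some a) = some b →
    Steps (CM tm₁ tm₂ tr) n (emb₂ tm₁ tm₂ a) (emb₂ tm₁ tm₂ b)
  | 0, a, b, h => by
    have : some a = some b := h
    cases this
    exact Steps.refl _ _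
  | n + 1, a, b, h => by
    rw [Function.iterate_succ_apply] at h
    have h1 : (flip bind tm₂.step) (some a) = tm₂.step a := rfl
    rw [h1] at h
    rcases h2 : tm₂.step a with _ | c
    · rw [h2] at h
      exfalso
      rw [iter_none] at h
      cases h
    · rw [h2] at h
      have h3 := steps_emb₂ n c b h
      rw [Nat.add_comm]
      refine Steps.trans (Steps.one ?_) h3
      obtain ⟨l, v, S⟩ := a
      cases l with
      | none => cases h2
      | some l =>
        have h4 : c = @TM2.stepAux _ _ _ _ tm₂.kDecidableEq (tm₂.m l) v S := by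
          exact (Option.some.inj h2).symm
        rw [h4, ← stepAux_lift₂]
        rfl

theorem transfer₁ (v : tm₁.σ × tm₂.σ) : ∀ (y : List (tm₁.Γ tm₁.k₁)) (S₂) (T)
    (o : Option (tm₂.Γ tm₂.k₀)) (S₁ : ∀ k, List (tm₁.Γ k)), S₁ tm₁.k₁ = y →
    Steps (CM tm₁ tm₂ tr) (y.length + 1)
      ⟨some (.inr false), (v, o), mix tm₁ tm₂ S₁ S₂ T⟩
      ⟨some (.inr true), (v, none), mix tm₁ tm₂
        (@update tm₁.K (fun k => List (tm₁.Γ k)) tm₁.kDecidableEq S₁ tm₁.k₁ []) S₂
        ((y.map tr).reverse ++ T)⟩
  | [], S₂, T, o, S₁, h => by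
    apply Steps.one
    have e : mix tm₁ tm₂ S₁ S₂ T (some (.inl tm₁.k₁)) = [] := h
    simp only [TM2.step, CM, TM2.stepAux, e, List.head?_nil, Option.map_none,
      Option.isSome_none, cond_false, List.tail_nil, update_mix_inl, List.map_nil,
      List.reverse_nil, List.nil_append]
  | a :: y, S₂, T, o, S₁, h => by
    have ih := transfer₁ v y S₂ (tr a :: T) (some (tr a))
      (@update tm₁.K (fun k => List (tm₁.Γ k)) tm₁.kDecidableEq S₁ tm₁.k₁ y) (by simp)
    have e : mix tm₁ tm₂ S₁ S₂ T (some (.inl tm₁.k₁)) = a :: y := h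
    have h1 : Steps (CM tm₁ tm₂ tr) 1 ⟨some (.inr false), (v, o), mix tm₁ tm₂ S₁ S₂ T⟩
        ⟨some (.inr false), (v, some (tr a)), mix tm₁ tm₂
        (@update tm₁.K (fun k => List (tm₁.Γ k)) tm₁.kDecidableEq S₁ tm₁.k₁ y) S₂
          (tr a :: T)⟩ := by
      apply Steps.one
      simp only [TM2.step, CM, TM2.stepAux, e, List.head?_cons, Option.map_some,
        Option.isSome_some, cond_true, List.tail_cons, update_mix_inl]
      have hp := stepAux_pushOpt (K := CK tm₁ tm₂) (Γ := CG tm₁ tm₂) (Λ := CL tm₁ tm₂)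
        (σ := CS tm₁ tm₂) none (fun v => v.2) (.goto (fun _ => .inr false)) (v, some (tr a))
        (mix tm₁ tm₂ (@update tm₁.K (fun k => List (tm₁.Γ k)) tm₁.kDecidableEq S₁ tm₁.k₁ y)
          S₂ T) (tr a) rfl
      refine (congrArg some hp).trans ?_
      rw [update_mix_none]
      rfl
    have h2 := Steps.trans h1 ih
    have e2 : 1 + (y.length + 1) = (a :: y).length + 1 := by simp [Nat.add_comm]
    rw [e2] at h2
    simpa using h2

theorem transfer₂ (v : tm₁.σ × tm₂.σ) : ∀ (T : List (tm₂.Γ tm₂.k₀)) (S₁)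
    (o : Option (tm₂.Γ tm₂.k₀)) (S₂ : ∀ k, List (tm₂.Γ k)),
    Steps (CM tm₁ tm₂ tr) (T.length + 1)
      ⟨some (.inr true), (v, o), mix tm₁ tm₂ S₁ S₂ T⟩
      ⟨some (.inl (.inr tm₂.main)), (v, none), mix tm₁ tm₂ S₁
        (@update tm₂.K (fun k => List (tm₂.Γ k)) tm₂.kDecidableEq S₂ tm₂.k₀
          (T.reverse ++ S₂ tm₂.k₀)) []⟩
  | [], S₁, o, S₂ => by
    apply Steps.one
    have e : mix tm₁ tm₂ S₁ S₂ [] none = [] := rfl
    simp [TM2.step, CM, TM2.stepAux, e, update_mix_none]
  | a :: T, S₁, o, S₂ => by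
    have ih := transfer₂ v T S₁ (some a)
      (@update tm₂.K (fun k => List (tm₂.Γ k)) tm₂.kDecidableEq S₂ tm₂.k₀ (a :: S₂ tm₂.k₀))
    have e : mix tm₁ tm₂ S₁ S₂ (a :: T) none = a :: T := rfl
    have h1 : Steps (CM tm₁ tm₂ tr) 1 ⟨some (.inr true), (v, o), mix tm₁ tm₂ S₁ S₂ (a :: T)⟩
        ⟨some (.inr true), (v, some a), mix tm₁ tm₂ S₁
        (@update tm₂.K (fun k => List (tm₂.Γ k)) tm₂.kDecidableEq S₂ tm₂.k₀
          (a :: S₂ tm₂.k₀)) T⟩ := by
      apply Steps.one
      simp only [TM2.step, CM, TM2.stepAux, e, List.head?_cons,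
        Option.isSome_some, cond_true, List.tail_cons, update_mix_none]
      have hp := stepAux_pushOpt (K := CK tm₁ tm₂) (Γ := CG tm₁ tm₂) (Λ := CL tm₁ tm₂)
        (σ := CS tm₁ tm₂) (some (.inr tm₂.k₀)) (fun v => v.2) (.goto (fun _ => .inr true))
        (v, some a) (mix tm₁ tm₂ S₁ S₂ T) a rfl
      refine (congrArg some hp).trans ?_
      rw [update_mix_inr]
      rfl
    have h2 := Steps.trans h1 ih
    have e2 : 1 + (T.length + 1) = (a :: T).length + 1 := by simp [Nat.add_comm]
    rw [e2] at h2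
    simpa using h2

end Comp

/-- The composition of two polynomial-time computable functions is polynomial-time computable. -/
theorem TM2ComputableInPolyTime.comp {α β γ αΓ βΓ γΓ : Type} {eα : α → List αΓ}
    {eβ : β → List βΓ} {eγ : γ → List γΓ} {f : α → β} {g : β → γ}
    (h₁ : TM2ComputableInPolyTime eα eβ f) (h₂ : TM2ComputableInPolyTime eβ eγ g) :
    Nonempty (TM2ComputableInPolyTime eα eγ (g ∘ f)) := by
  obtain ⟨⟨tm₁, i₁, o₁⟩, time₁, H₁⟩ := h₁
  obtain ⟨⟨tm₂, i₂, o₂⟩, time₂, H₂⟩ := h₂
  simp only at H₁ H₂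
  let _ := tm₁.kDecidableEq
  let _ := tm₂.kDecidableEq
  let _ := tm₁.kFin
  let _ := tm₂.kFin
  let _ := tm₁.ΛFin
  let tr : tm₁.Γ tm₁.k₁ → tm₂.Γ tm₂.k₀ := fun a => i₂.symm (o₁ a)
  let C : ℕ := ∑ l, pushes (tm₁.m l)
  have key : ∀ a, ∃ n, n ≤ (time₁ + 2 * (Polynomial.X + Polynomial.C C * time₁ + 1) +
      time₂.comp (Polynomial.X + Polynomial.C C * time₁)).eval (eα a).length ∧
      (flip bind (compMachine tm₁ tm₂ tr).step)^[n]
        (some (initList (compMachine tm₁ tm₂ tr) ((eα a).map i₁.symm))) =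
        some (haltList (compMachine tm₁ tm₂ tr) ((eγ (g (f a))).map o₂.symm)) := by
    intro a
    obtain ⟨⟨n₁, E₁⟩, L₁⟩ := H₁ a
    obtain ⟨⟨n₂, E₂⟩, L₂⟩ := H₂ (f a)
    simp only at L₁ L₂
    set x := (eα a).map i₁.symm with hx
    set y := (eβ (f a)).map o₁.symm with hy
    set z := (eγ (g (f a))).map o₂.symm with hz
    have E₁' : (flip bind tm₁.step)^[n₁] (some (initList tm₁ x)) = some (haltList tm₁ y) := E₁
    have E₂' : (flip bind tm₂.step)^[n₂] (some (initList tm₂ ((eβ (f a)).map i₂.symm))) =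
        some (haltList tm₂ z) := E₂
    -- size of y
    have hsz : y.length ≤ x.length + C * n₁ := by
      have h := steps_size tm₁.m n₁ (initList tm₁ x) (haltList tm₁ y) E₁'
      have h2 : totalSize (initList tm₁ x).stk = x.length := by
        rw [initList_eq]
        have := totalSize_update (fun k => ([] : List (tm₁.Γ k))) tm₁.k₀ x
        simpa [totalSize] using this
      have h3 : totalSize (haltList tm₁ y).stk = y.length := by
        rw [haltList_eq]
        have := totalSize_update (fun k => ([] : List (tm₁.Γ k))) tm₁.k₁ y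
        simpa [totalSize] using this
      rw [h2, h3] at h
      exact h
    have s1 := steps_emb₁ tm₁ tm₂ tr n₁ _ _ E₁'
    have s2 := transfer₁ tm₁ tm₂ tr (tm₁.initialState, tm₂.initialState) y (fun _ => []) []
      none (update (fun _ => []) tm₁.k₁ y) (by simp)
    have s3 := transfer₂ tm₁ tm₂ tr (tm₁.initialState, tm₂.initialState)
      ((y.map tr).reverse ++ []) (update (update (fun _ => []) tm₁.k₁ y) tm₁.k₁ [])
      none (fun _ => [])
    have s4 := steps_emb₂ tm₁ tm₂ tr n₂ _ _ E₂'
    have hyt : y.map tr = (eβ (f a)).map i₂.symm := by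
      simp [hy, tr, List.map_map, Function.comp_def]
    have c1 : emb₁ tm₁ tm₂ (haltList tm₁ y) = ⟨some (.inr false),
        ((tm₁.initialState, tm₂.initialState), none),
        mix tm₁ tm₂ (update (fun _ => []) tm₁.k₁ y) (fun _ => []) []⟩ := by
      rw [haltList_eq]; rfl
    have c2 : (⟨some (.inl (.inr tm₂.main)), ((tm₁.initialState, tm₂.initialState), none),
        mix tm₁ tm₂ (update (update (fun _ => []) tm₁.k₁ y) tm₁.k₁ [])
          (update (fun _ => []) tm₂.k₀ (((y.map tr).reverse ++ []).reverse ++ [])) []⟩ :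
          TM2.Cfg (CG tm₁ tm₂) (CL tm₁ tm₂) (CS tm₁ tm₂)) =
        emb₂ tm₁ tm₂ (initList tm₂ ((eβ (f a)).map i₂.symm)) := by
      rw [initList_eq]
      have e : (update (update (fun k => ([] : List (tm₁.Γ k))) tm₁.k₁ y) tm₁.k₁ []) =
          fun _ => [] := by
        funext k
        by_cases h : k = tm₁.k₁
        · subst h; simp
        · simp [h]
      rw [e]
      simp only [List.append_nil, List.reverse_reverse, hyt]
      rfl
    rw [c1] at s1
    rw [c2] at s3
    have s5 := Steps.trans (Steps.trans (Steps.trans s1 s2) s3) s4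
    have d1 : emb₁ tm₁ tm₂ (initList tm₁ x) = initList (compMachine tm₁ tm₂ tr) x := by
      rw [initList_eq, initList_eq]
      have e : (mix tm₁ tm₂ (update (fun _ => []) tm₁.k₀ x) (fun _ => []) []) =
          @update (CK tm₁ tm₂) (fun k => List (CG tm₁ tm₂ k)) _ (fun _ => [])
            (some (Sum.inl tm₁.k₀)) x := by
        rw [← update_mix_inl]
        congr 1
        funext k
        match k with
        | none => rfl
        | some (.inl k) => rfl
        | some (.inr k) => rfl
      unfold emb₁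
      simp only
      rw [e]
      rfl
    have d2 : emb₂ tm₁ tm₂ (haltList tm₂ z) = haltList (compMachine tm₁ tm₂ tr) z := by
      rw [haltList_eq, haltList_eq]
      have e : (mix tm₁ tm₂ (fun _ => []) (update (fun _ => []) tm₂.k₁ z) []) =
          @update (CK tm₁ tm₂) (fun k => List (CG tm₁ tm₂ k)) _ (fun _ => [])
            (some (Sum.inr tm₂.k₁)) z := by
        rw [← update_mix_inr]
        congr 1
        funext k
        match k with
        | none => rfl
        | some (.inl k) => rfl
        | some (.inr k) => rfl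
      unfold emb₂
      simp only
      rw [e]
      rfl
    rw [d1, d2] at s5
    refine ⟨_, ?_, s5⟩
    have l1 : x.length = (eα a).length := by simp [hx]
    have l2 : y.length = (eβ (f a)).length := by simp [hy]
    have l3 : ((y.map tr).reverse ++ []).length = y.length := by simp
    rw [l3]
    simp only [Polynomial.eval_add, Polynomial.eval_mul, Polynomial.eval_X,
      Polynomial.eval_ofNat, Polynomial.eval_C, Polynomial.eval_one, Polynomial.eval_comp]
    have m1 : C * n₁ ≤ C * time₁.eval (eα a).length := Nat.mul_le_mul_left _ L₁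
    have m2 : time₂.eval (eβ (f a)).length ≤
        time₂.eval ((eα a).length + C * time₁.eval (eα a).length) := by
      apply poly_eval_mono
      omega
    omega
  exact ⟨⟨⟨compMachine tm₁ tm₂ tr, i₁, o₂⟩,
    time₁ + 2 * (Polynomial.X + Polynomial.C C * time₁ + 1) +
      time₂.comp (Polynomial.X + Polynomial.C C * time₁),
    fun a => ⟨⟨(key a).choose, (key a).choose_spec.2⟩, (key a).choose_spec.1⟩⟩⟩

end Pool.Agent.Helper32_Poly
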