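import Pool.Agent.Helper32_Poly.Loops

/-!
# Word morphisms are computable in polynomial time
-/

namespace Pool.Agent.Helper32_Poly

open Turing Function Computability StateTransition

section

variable {K : Type} [DecidableEq K] {Γ : K → Type} {σ : Type}

/-- push the word `g a` where `a` is the letter in the register -/
noncomputable def Prog.pushMap {A : Type} [Fintype A] (get : σ → Option A) (k : K)
    (g : A → List (Γ k)) : Prog Γ σ :=
  Prog.switch get (fun a => Prog.pushWord k (g a)) (Finset.univ : Finset A).toList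

theorem Prog.pushMap_run {A : Type} [Fintype A] (get : σ → Option A) (k : K)
    (g : A → List (Γ k)) {a : A} {v : σ} (S : ∀ k, List (Γ k)) (hv : get v = some a) :
    ∃ t, t ≤ (∑ a, (g a).length) + 1 + Fintype.card A ∧
      Prog.Run (Prog.pushMap get k g) v S v (update S k ((g a).reverse ++ S k)) t := by
  have h1 := Prog.pushWord_run (Γ := Γ) k v (g a) S
  obtain ⟨t, ht, hr⟩ := Prog.switch_run get (fun a => Prog.pushWord k (g a)) hv h1
    (Finset.univ : Finset A).toList (by simp)
  refine ⟨t, ?_, hr⟩
  have h2 : (g a).length ≤ ∑ a, (g a).length :=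
    Finset.single_le_sum (f := fun a => (g a).length) (fun _ _ => Nat.zero_le _)
      (Finset.mem_univ a)
  simp only [Finset.length_toList, Finset.card_univ] at ht
  omega

end

/-- three stacks -/
inductive K3
  | a | b | c
  deriving DecidableEq

instance : Fintype K3 := ⟨{.a, .b, .c}, by intro x; cases x <;> decide⟩

/-- alphabets of the three stacks -/
abbrev G3 (A B : Type) : K3 → Type
  | .a => A
  | .b => A
  | .c => B

/-- contents of the three stacks -/
def S3 {A B : Type} (x y : List A) (z : List B) : ∀ k, List (G3 A B k)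
  | .a => x
  | .b => y
  | .c => z

section

variable {A B : Type}

@[simp] theorem S3_a (x y : List A) (z : List B) : S3 x y z .a = x := rfl
@[simp] theorem S3_b (x y : List A) (z : List B) : S3 x y z .b = y := rfl
@[simp] theorem S3_c (x y : List A) (z : List B) : S3 x y z .c = z := rfl

theorem S3_update_a (x y : List A) (z : List B) (x' : List A) :
    update (S3 x y z) K3.a x' = S3 x' y z := by
  funext k; cases k <;> rfl
theorem S3_update_b (x y : List A) (z : List B) (y' : List A) :
    update (S3 x y z) K3.b y' = S3 x y' z := by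
  funext k; cases k <;> rfl
theorem S3_update_c (x y : List A) (z : List B) (z' : List B) :
    update (S3 x y z) K3.c z' = S3 x y z' := by
  funext k; cases k <;> rfl

theorem S3_zero_a (x : List A) :
    update (fun _ => [] : ∀ k, List (G3 A B k)) K3.a x = S3 x [] [] := by
  funext k; cases k <;> rfl
theorem S3_zero_c (z : List B) :
    update (fun _ => [] : ∀ k, List (G3 A B k)) K3.c z = S3 [] [] z := by
  funext k; cases k <;> rfl

variable [Fintype A]

/-- the program computing `w ↦ P ++ w.flatMap h` -/
noncomputable def morphProg (P : List B) (h : A → List B) : Prog (G3 A B) (Option A) :=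
  .seq (.forEach K3.a id (fun _ o => o) (.pushMap id K3.b (fun x => [x])))
    (.seq (.forEach K3.b id (fun _ o => o) (.pushMap id K3.c (fun x => (h x).reverse)))
      (.pushWord K3.c P.reverse))

theorem morph_run (P : List B) (h : A → List B) (w : List A) :
    ∃ t, t ≤ w.length * (∑ a, (h a).length + 2 * Fintype.card A + 1 + 1 +
        Fintype.card A + 4) + P.length + 5 ∧
      Prog.Run (morphProg P h) none (S3 w [] []) none (S3 [] [] (P ++ w.flatMap h)) t := by
  -- first loop
  obtain ⟨v1, T1, t1, ht1, hr1, hI1, -⟩ := Prog.forEach_run (Γ := G3 A B) K3.a id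
    (fun (_ : Option A) o => o) (fun _ _ => rfl)
    (.pushMap id K3.b (fun x => [x]))
    (fun l v S => ∃ d, d ++ l = w ∧ S = S3 l d.reverse [])
    (∑ _a : A, 1 + 1 + Fintype.card A)
    (by
      rintro a l v S ⟨d, hd, rfl⟩ -
      obtain ⟨t, ht, hr⟩ := Prog.pushMap_run (Γ := G3 A B) id K3.b (fun x => [x])
        (v := some a) (a := a) (update (S3 (a :: l) d.reverse []) K3.a l) rfl
      refine ⟨_, _, t, ht, hr, ⟨d ++ [a], by simpa using hd, ?_⟩, rfl⟩
      rw [S3_update_a, S3_update_b]
      simp)
    w none (S3 w [] []) rfl ⟨[], rfl, rfl⟩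
  obtain ⟨d1, hd1, rfl⟩ := hI1
  rw [List.append_nil] at hd1
  subst hd1
  -- second loop
  obtain ⟨v2, T2, t2, ht2, hr2, hI2, -⟩ := Prog.forEach_run (Γ := G3 A B) K3.b id
    (fun (_ : Option A) o => o) (fun _ _ => rfl)
    (.pushMap id K3.c (fun x => (h x).reverse))
    (fun l v S => ∃ d, d ++ l = d1.reverse ∧ S = S3 [] l (d.reverse.flatMap h))
    (∑ a : A, (h a).reverse.length + 1 + Fintype.card A)
    (by
      rintro a l v S ⟨d, hd, rfl⟩ -
      obtain ⟨t, ht, hr⟩ := Prog.pushMap_run (Γ := G3 A B) id K3.c (fun x => (h x).reverse)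
        (v := some a) (a := a) (update (S3 [] (a :: l) (d.reverse.flatMap h)) K3.b l) rfl
      refine ⟨_, _, t, ht, hr, ⟨d ++ [a], by simpa using hd, ?_⟩, rfl⟩
      rw [S3_update_b, S3_update_c]
      simp)
    d1.reverse none (S3 [] d1.reverse []) rfl ⟨[], rfl, rfl⟩
  obtain ⟨d2, hd2, rfl⟩ := hI2
  rw [List.append_nil] at hd2
  subst hd2
  rw [List.reverse_reverse] at hr2
  have h3 := Prog.pushWord_run (Γ := G3 A B) K3.c (none : Option A) P.reverse
    (S3 [] [] (d1.flatMap h))
  rw [S3_update_c, S3_c, List.reverse_reverse] at h3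
  refine ⟨_, ?_, Prog.Run.seq hr1 (Prog.Run.seq hr2 h3)⟩
  simp only [List.length_reverse, Finset.sum_const, Finset.card_univ, smul_eq_mul,
    mul_one] at ht1 ht2 ⊢
  have e : d1.length * (∑ a, (h a).length + 2 * Fintype.card A + 1 + 1 +
        Fintype.card A + 4) = d1.length * (Fintype.card A + 1 + Fintype.card A + 2) +
        d1.length * (∑ a, (h a).length + 1 + Fintype.card A + 2) := by ring
  omega

/-- A function whose value on the level of encodings is `P ++ flatMap h` is computable in
polynomial time. -/
noncomputable def morphComputable {α β : Type} (ea : α → List A) (eb : β → List B) (f : α → β)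
    (P : List B) (h : A → List B) (H : ∀ a, eb (f a) = P ++ (ea a).flatMap h) :
    TM2ComputableInPolyTime ea eb f :=
  Prog.computable ea eb f none K3.a K3.c (morphProg P h) (Equiv.refl A) (Equiv.refl B)
    (Polynomial.X * ((∑ a, (h a).length + 2 * Fintype.card A + 1 + 1 +
        Fintype.card A + 4 : ℕ) : Polynomial ℕ) + ((P.length + 5 : ℕ) : Polynomial ℕ))
    (by
      intro a
      obtain ⟨t, ht, hr⟩ := morph_run P h (ea a)
      refine ⟨t, ?_, ?_⟩
      · simp only [Polynomial.eval_add, Polynomial.eval_mul, Polynomial.eval_X,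
          Polynomial.eval_natCast, Nat.cast_id]
        omega
      · rw [S3_zero_a, S3_zero_c, H a]
        simpa using hr)

end

end Pool.Agent.Helper32_Poly
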