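import Pool.Agent.Helper32_Poly.Wrap

/-!
# Derived constructs for structured stack programs
-/

namespace Pool.Agent.Helper32_Poly

open Turing Function Computability StateTransition

section

variable {K : Type} [DecidableEq K] {Γ : K → Type} {σ : Type}

/-- do nothing -/
def Prog.skip : Prog Γ σ := .load id

theorem Prog.skip_run (v : σ) (S : ∀ k, List (Γ k)) :
    Prog.Run (.skip : Prog Γ σ) v S v S 1 := Prog.Run.load id v S

/-- push a constant word (the last letter ends on top) -/
def Prog.pushWord (k : K) : List (Γ k) → Prog Γ σ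
  | [] => .skip
  | b :: w => .seq (.push k (fun _ => b)) (Prog.pushWord k w)

theorem Prog.pushWord_run (k : K) (v : σ) : ∀ (w : List (Γ k)) (S : ∀ k, List (Γ k)),
    Prog.Run (.pushWord k w : Prog Γ σ) v S v (update S k (w.reverse ++ S k)) (w.length + 1)
  | [], S => by
    simp only [Prog.pushWord, List.reverse_nil, List.nil_append, Function.update_eq_self,
      List.length_nil]
    exact Prog.skip_run v S
  | b :: w, S => by
    have h1 := Prog.Run.push (Γ := Γ) k (fun _ => b) v S
    have h2 := Prog.pushWord_run k v w (update S k (b :: S k))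
    have h3 := Prog.Run.seq h1 h2
    rw [Function.update_idem, Function.update_self] at h3
    have e : 1 + (w.length + 1) = (b :: w).length + 1 := by simp [Nat.add_comm]
    rw [e] at h3
    have e2 : w.reverse ++ b :: S k = (b :: w).reverse ++ S k := by simp
    rw [e2] at h3
    exact h3

open Classical in
/-- case distinction over a finite list of letters -/
noncomputable def Prog.switch {A : Type} (get : σ → Option A) (p : A → Prog Γ σ) :
    List A → Prog Γ σ
  | [] => .skip
  | a :: l => .ite (fun v => decide (get v = some a)) (p a) (Prog.switch get p l)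

theorem Prog.switch_run {A : Type} (get : σ → Option A) (p : A → Prog Γ σ) {a : A} {v : σ}
    {S : ∀ k, List (Γ k)} {v' : σ} {S' : ∀ k, List (Γ k)} {t : ℕ} (hv : get v = some a)
    (h : Prog.Run (p a) v S v' S' t) : ∀ (l : List A), a ∈ l →
    ∃ t', t' ≤ t + l.length ∧ Prog.Run (Prog.switch get p l) v S v' S' t'
  | [], hl => by simp at hl
  | b :: l, hl => by
    by_cases hb : b = a
    · subst hb
      refine ⟨1 + t, by simp; omega, ?_⟩
      exact Prog.Run.ite_true (by simp [hv]) h
    · have hl' : a ∈ l := by
        rcases List.mem_cons.1 hl with h | h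
        · exact absurd h.symm hb
        · exact h
      obtain ⟨t', ht', hr⟩ := Prog.switch_run get p hv h l hl'
      refine ⟨1 + t', by simp; omega, ?_⟩
      refine Prog.Run.ite_false ?_ hr
      simp [hv, Ne.symm hb]

/-- pop the letters of stack `k` one after the other and run `p` for each of them -/
def Prog.forEach (k : K) (get : σ → Option (Γ k)) (set : σ → Option (Γ k) → σ)
    (p : Prog Γ σ) : Prog Γ σ :=
  .seq (.pop k set) (.loop (fun v => (get v).isSome) (.seq p (.pop k set)))

theorem Prog.forEach_run (k : K) (get : σ → Option (Γ k)) (set : σ → Option (Γ k) → σ)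
    (hgs : ∀ v o, get (set v o) = o) (p : Prog Γ σ)
    (I : List (Γ k) → σ → (∀ k, List (Γ k)) → Prop) (T : ℕ)
    (step : ∀ a l v S, I (a :: l) v S → S k = a :: l → ∃ v' S' t, t ≤ T ∧
      Prog.Run p (set v (some a)) (update S k l) v' S' t ∧ I l v' S' ∧ S' k = l) :
    ∀ (l : List (Γ k)) (v : σ) (S : ∀ k, List (Γ k)), S k = l → I l v S →
      ∃ v' S' t, t ≤ l.length * (T + 2) + 2 ∧
        Prog.Run (.forEach k get set p) v S (set v' none) S' t ∧ I [] v' S' ∧ S' k = [] := by
  -- the loop
  have key : ∀ (l : List (Γ k)) (v : σ) (S : ∀ k, List (Γ k)), S k = l → I l v S →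
      ∃ v' S' t, t ≤ l.length * (T + 2) + 1 ∧
        Prog.Run (.loop (fun v => (get v).isSome) (.seq p (.pop k set)))
          (set v l.head?) (update S k l.tail) (set v' none) S' t ∧ I [] v' S' ∧ S' k = [] := by
    intro l
    induction l with
    | nil =>
      intro v S hS hI
      refine ⟨v, S, 1, by simp, ?_, hI, hS⟩
      have : update S k ([] : List (Γ k)).tail = S := by
        rw [List.tail_nil, ← hS, Function.update_eq_self]
      rw [this]
      exact Prog.Run.loop_false _ (by simp [hgs])
    | cons a l ih =>
      intro v S hS hI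
      obtain ⟨v', S', t, ht, hr, hI', hS'⟩ := step a l v S hI hS
      obtain ⟨v'', S'', t', ht', hr', hI'', hS''⟩ := ih v' S' hS' hI'
      refine ⟨v'', S'', 1 + (t + 1) + t', ?_, ?_, hI'', hS''⟩
      · simp only [List.length_cons]
        have : (l.length + 1) * (T + 2) = l.length * (T + 2) + (T + 2) := by ring
        omega
      · have h1 := Prog.Run.pop (Γ := Γ) k set v' S'
        rw [hS'] at h1
        exact Prog.Run.loop_true (by simp [hgs]) (Prog.Run.seq hr h1) hr'
  intro l v S hS hI
  obtain ⟨v', S', t, ht, hr, hI', hS'⟩ := key l v S hS hI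
  refine ⟨v', S', 1 + t, by omega, ?_, hI', hS'⟩
  refine Prog.Run.seq ?_ hr
  have h1 := Prog.Run.pop (Γ := Γ) k set v S
  rw [hS] at h1
  exact h1

end

end Pool.Agent.Helper32_Poly
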