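import Mathlib

/-!
# Structured stack programs and their compilation to Mathlib's `TM2` machines

`Prog Γ σ` is a small structured language (push, pop, load, sequencing, branching, while loops)
over stacks with contents `List (Γ k)`, and a finite internal memory `σ`.
`Prog.Run` is its big-step semantics with time.  `Prog.code` compiles a program to TM2 code and
`Prog.code_run` is the simulation theorem.
-/

namespace Pool.Agent.Helper32_Poly

open Turing Function

/-- Structured stack programs. -/
inductive Prog {K : Type} (Γ : K → Type) (σ : Type) : Type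
  | push (k : K) (f : σ → Γ k) : Prog Γ σ
  | pop (k : K) (f : σ → Option (Γ k) → σ) : Prog Γ σ
  | load (f : σ → σ) : Prog Γ σ
  | seq (p q : Prog Γ σ) : Prog Γ σ
  | ite (c : σ → Bool) (p q : Prog Γ σ) : Prog Γ σ
  | loop (c : σ → Bool) (p : Prog Γ σ) : Prog Γ σ

section Defs

variable {K : Type} {Γ : K → Type} {σ : Type}

/-- labels used by the compiled code of a program -/
def Prog.Lab : Prog Γ σ → Type
  | .push _ _ => Unit
  | .pop _ _ => Unit
  | .load _ => Unit
  | .seq p q => p.Lab ⊕ q.Lab
  | .ite _ p q => Option (p.Lab ⊕ q.Lab)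
  | .loop _ p => Option p.Lab

/-- there are finitely many labels -/
@[instance_reducible]
def Prog.labFintype : (p : Prog Γ σ) → Fintype p.Lab
  | .push _ _ => inferInstanceAs (Fintype Unit)
  | .pop _ _ => inferInstanceAs (Fintype Unit)
  | .load _ => inferInstanceAs (Fintype Unit)
  | .seq p q => @instFintypeSum _ _ p.labFintype q.labFintype
  | .ite _ p q => @instFintypeOption _ (@instFintypeSum _ _ p.labFintype q.labFintype)
  | .loop _ p => @instFintypeOption _ p.labFintype

instance (p : Prog Γ σ) : Fintype p.Lab := p.labFintype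

/-- start label -/
def Prog.start : (p : Prog Γ σ) → p.Lab
  | .push _ _ => ()
  | .pop _ _ => ()
  | .load _ => ()
  | .seq p _ => Sum.inl p.start
  | .ite _ _ _ => none
  | .loop _ _ => none

/-- compiled code -/
def Prog.code {Λ : Type} : (p : Prog Γ σ) → (p.Lab → Λ) → Λ → p.Lab → TM2.Stmt Γ Λ σ
  | .push k f, _, e, _ => .push k f (.goto fun _ => e)
  | .pop k f, _, e, _ => .pop k f (.goto fun _ => e)
  | .load f, _, e, _ => .load f (.goto fun _ => e)
  | .seq p q, emb, e, l =>
    match l with
    | Sum.inl l => p.code (fun x => emb (Sum.inl x)) (emb (Sum.inr q.start)) l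
    | Sum.inr l => q.code (fun x => emb (Sum.inr x)) e l
  | .ite c p q, emb, e, l =>
    match l with
    | none => .branch c (.goto fun _ => emb (some (Sum.inl p.start)))
        (.goto fun _ => emb (some (Sum.inr q.start)))
    | some (Sum.inl l) => p.code (fun x => emb (some (Sum.inl x))) e l
    | some (Sum.inr l) => q.code (fun x => emb (some (Sum.inr x))) e l
  | .loop c p, emb, e, l =>
    match l with
    | none => .branch c (.goto fun _ => emb (some p.start)) (.goto fun _ => e)
    | some l => p.code (fun x => emb (some x)) (emb none) l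

variable [DecidableEq K]

/-- Big-step semantics with time. -/
inductive Prog.Run : Prog Γ σ → σ → (∀ k, List (Γ k)) → σ → (∀ k, List (Γ k)) → ℕ → Prop
  | push (k f v S) : Prog.Run (.push k f) v S v (update S k (f v :: S k)) 1
  | pop (k f v S) : Prog.Run (.pop k f) v S (f v (S k).head?) (update S k (S k).tail) 1
  | load (f v S) : Prog.Run (.load f) v S (f v) S 1
  | seq {p q v S v' S' v'' S'' t t'} : Prog.Run p v S v' S' t → Prog.Run q v' S' v'' S'' t' →
      Prog.Run (.seq p q) v S v'' S'' (t + t')
  | ite_true {c p q v S v' S' t} : c v = true → Prog.Run p v S v' S' t →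
      Prog.Run (.ite c p q) v S v' S' (1 + t)
  | ite_false {c p q v S v' S' t} : c v = false → Prog.Run q v S v' S' t →
      Prog.Run (.ite c p q) v S v' S' (1 + t)
  | loop_false {c p v} (S) : c v = false → Prog.Run (.loop c p) v S v S 1
  | loop_true {c p v S v' S' v'' S'' t t'} : c v = true → Prog.Run p v S v' S' t →
      Prog.Run (.loop c p) v' S' v'' S'' t' → Prog.Run (.loop c p) v S v'' S'' (1 + t + t')

/-- `n` steps of a TM2 machine lead from `a` to `b`. -/
def Steps {Λ : Type} (M : Λ → TM2.Stmt Γ Λ σ) (n : ℕ) (a b : TM2.Cfg Γ Λ σ) : Prop :=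
  (flip bind (TM2.step M))^[n] (some a) = some b

theorem Steps.refl {Λ : Type} (M : Λ → TM2.Stmt Γ Λ σ) (a : TM2.Cfg Γ Λ σ) : Steps M 0 a a := rfl

theorem Steps.trans {Λ : Type} {M : Λ → TM2.Stmt Γ Λ σ} {n m : ℕ} {a b c : TM2.Cfg Γ Λ σ}
    (h₁ : Steps M n a b) (h₂ : Steps M m b c) : Steps M (n + m) a c := by
  unfold Steps at *
  rw [Nat.add_comm, Function.iterate_add_apply, h₁, h₂]

theorem Steps.one {Λ : Type} {M : Λ → TM2.Stmt Γ Λ σ} {a b : TM2.Cfg Γ Λ σ}
    (h : TM2.step M a = some b) : Steps M 1 a b := by
  simpa [Steps, flip] using h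

theorem Prog.code_run {Λ : Type} (M : Λ → TM2.Stmt Γ Λ σ) {p : Prog Γ σ} {v : σ}
    {S : ∀ k, List (Γ k)} {v' : σ} {S' : ∀ k, List (Γ k)} {t : ℕ}
    (hr : Prog.Run p v S v' S' t) :
    ∀ (emb : p.Lab → Λ) (e : Λ), (∀ l, M (emb l) = p.code emb e l) →
      Steps M t ⟨some (emb p.start), v, S⟩ ⟨some e, v', S'⟩ := by
  induction hr with
  | push k f v S =>
    intro emb e h
    apply Steps.one
    have h1 : M (emb (Prog.push k f).start) = _ := h _
    simp [TM2.step, h1, Prog.code, TM2.stepAux]
  | pop k f v S =>
    intro emb e h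
    apply Steps.one
    have h1 : M (emb (Prog.pop k f).start) = _ := h _
    simp [TM2.step, h1, Prog.code, TM2.stepAux]
  | load f v S =>
    intro emb e h
    apply Steps.one
    have h1 : M (emb (Prog.load f).start) = _ := h _
    simp [TM2.step, h1, Prog.code, TM2.stepAux]
  | @seq p q v S v' S' v'' S'' t t' h1 h2 ih1 ih2 =>
    intro emb e h
    exact Steps.trans (ih1 (fun x => emb (Sum.inl x)) (emb (Sum.inr q.start))
      (fun l => h (Sum.inl l))) (ih2 (fun x => emb (Sum.inr x)) e (fun l => h (Sum.inr l)))
  | @ite_true c p q v S v' S' t hc h1 ih1 =>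
    intro emb e h
    refine Steps.trans (Steps.one ?_) (ih1 (fun x => emb (some (Sum.inl x))) e
      (fun l => h (some (Sum.inl l))))
    have h1 : M (emb (Prog.ite c p q).start) = TM2.Stmt.branch c
      (.goto fun _ => emb (some (Sum.inl p.start)))
      (.goto fun _ => emb (some (Sum.inr q.start))) := h none
    simp only [TM2.step, h1, TM2.stepAux, hc, cond_true]
  | @ite_false c p q v S v' S' t hc h1 ih1 =>
    intro emb e h
    refine Steps.trans (Steps.one ?_) (ih1 (fun x => emb (some (Sum.inr x))) e
      (fun l => h (some (Sum.inr l))))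
    have h1 : M (emb (Prog.ite c p q).start) = TM2.Stmt.branch c
      (.goto fun _ => emb (some (Sum.inl p.start)))
      (.goto fun _ => emb (some (Sum.inr q.start))) := h none
    simp only [TM2.step, h1, TM2.stepAux, hc, cond_false]
  | @loop_false c p v S hc =>
    intro emb e h
    refine Steps.one ?_
    have h1 : M (emb (Prog.loop c p).start) = TM2.Stmt.branch c
      (.goto fun _ => emb (some p.start)) (.goto fun _ => e) := h none
    simp only [TM2.step, h1, TM2.stepAux, hc, cond_false]
  | @loop_true c p v S v' S' v'' S'' t t' hc h1 h2 ih1 ih2 =>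
    intro emb e h
    refine Steps.trans (Steps.trans (Steps.one ?_)
      (ih1 (fun x => emb (some x)) (emb none) (fun l => h (some l)))) (ih2 emb e h)
    have h1 : M (emb (Prog.loop c p).start) = TM2.Stmt.branch c
      (.goto fun _ => emb (some p.start)) (.goto fun _ => e) := h none
    simp only [TM2.step, h1, TM2.stepAux, hc, cond_true]

end Defs

end Pool.Agent.Helper32_Poly
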