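import Pool.Agent.Helper32_Poly.Prog

/-!
# From structured programs to `TM2ComputableInPolyTime`
-/

namespace Pool.Agent.Helper32_Poly

open Turing Function Computability StateTransition

section Machine

variable {K : Type} [DecidableEq K] [Fintype K] {Γ : K → Type} {σ : Type} [Fintype σ]

/-- The bundled `TM2` machine running a structured program. -/
def Prog.machine (v₀ : σ) (k₀ k₁ : K) [Fintype (Γ k₀)] (p : Prog Γ σ) : FinTM2 where
  K := K
  k₀ := k₀
  k₁ := k₁
  Γ := Γ
  Λ := Option p.Lab
  main := some p.start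
  σ := σ
  initialState := v₀
  m := fun l => match l with
    | none => .halt
    | some l => p.code some none l

end Machine

theorem initList_eq (tm : FinTM2) (s : List (tm.Γ tm.k₀)) :
    initList tm s = ⟨some tm.main, tm.initialState,
      @update tm.K (fun k => List (tm.Γ k)) tm.kDecidableEq (fun _ => []) tm.k₀ s⟩ := by
  unfold initList
  congr 1
  funext k
  by_cases h : k = tm.k₀
  · subst h
    simp
  · simp [h]

theorem haltList_eq (tm : FinTM2) (s : List (tm.Γ tm.k₁)) :
    haltList tm s = ⟨none, tm.initialState,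
      @update tm.K (fun k => List (tm.Γ k)) tm.kDecidableEq (fun _ => []) tm.k₁ s⟩ := by
  unfold haltList
  congr 1
  funext k
  by_cases h : k = tm.k₁
  · subst h
    simp
  · simp [h]

section Machine

variable {K : Type} [DecidableEq K] [Fintype K] {Γ : K → Type} {σ : Type} [Fintype σ]

/-- running the machine of a program -/
theorem Prog.machine_steps (v₀ : σ) (k₀ k₁ : K) [Fintype (Γ k₀)] (p : Prog Γ σ)
    {x : List (Γ k₀)} {y : List (Γ k₁)} {t : ℕ}
    (h : Prog.Run p v₀ (update (fun _ => []) k₀ x) v₀ (update (fun _ => []) k₁ y) t) :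
    (flip bind (p.machine v₀ k₀ k₁).step)^[t + 1] (some (initList (p.machine v₀ k₀ k₁) x)) =
      some (haltList (p.machine v₀ k₀ k₁) y) := by
  have h1 := Prog.code_run (Λ := Option p.Lab) (p.machine v₀ k₀ k₁).m h (fun l => some l) none
    (fun l => rfl)
  have h2 : Steps (p.machine v₀ k₀ k₁).m 1 ⟨some none, v₀, (update (fun _ => []) k₁ y)⟩
      ⟨none, v₀, (update (fun _ => []) k₁ y)⟩ := by
    apply Steps.one
    rfl
  have a := initList_eq (p.machine v₀ k₀ k₁) x
  have b := haltList_eq (p.machine v₀ k₀ k₁) y
  have h3 : (flip bind (p.machine v₀ k₀ k₁).step)^[t + 1] (some _) = some _ :=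
    Steps.trans h1 h2
  exact (congrArg (fun c => (flip bind (p.machine v₀ k₀ k₁).step)^[t + 1] (some c)) a).trans
    (h3.trans (congrArg some b).symm)

/-- running the machine of a program -/
noncomputable def Prog.machine_outputs (v₀ : σ) (k₀ k₁ : K) [Fintype (Γ k₀)] (p : Prog Γ σ)
    {x : List (Γ k₀)} {y : List (Γ k₁)} {T : ℕ}
    (h : ∃ t, t ≤ T ∧
      Prog.Run p v₀ (update (fun _ => []) k₀ x) v₀ (update (fun _ => []) k₁ y) t) :
    TM2OutputsInTime (p.machine v₀ k₀ k₁) x (some y) (T + 1) where
  steps := h.choose + 1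
  evals_in_steps := Prog.machine_steps v₀ k₀ k₁ p h.choose_spec.2
  steps_le_m := Nat.succ_le_succ h.choose_spec.1

/-- A structured program computing `f` in polynomial time yields
Mathlib's `TM2ComputableInPolyTime`. -/
noncomputable def Prog.computable {α β αΓ βΓ : Type} (ea : α → List αΓ) (eb : β → List βΓ)
    (f : α → β) (v₀ : σ) (k₀ k₁ : K) [Fintype (Γ k₀)] (p : Prog Γ σ)
    (e₀ : Γ k₀ ≃ αΓ) (e₁ : Γ k₁ ≃ βΓ) (q : Polynomial ℕ)
    (h : ∀ a, ∃ t, t ≤ q.eval (ea a).length ∧
      Prog.Run p v₀ (update (fun _ => []) k₀ ((ea a).map e₀.symm)) v₀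
        (update (fun _ => []) k₁ ((eb (f a)).map e₁.symm)) t) :
    TM2ComputableInPolyTime ea eb f where
  tm := p.machine v₀ k₀ k₁
  inputAlphabet := e₀
  outputAlphabet := e₁
  time := q + 1
  outputsFun a := by
    have h2 := Prog.machine_outputs v₀ k₀ k₁ p (h a)
    have h3 : (q + 1).eval (ea a).length = q.eval (ea a).length + 1 := by simp
    rw [h3]
    exact h2

end Machine

section Lift

variable {K : Type} [DecidableEq K] {Γ : K → Type} {σ τ : Type}

/-- Add an idle second component to the internal memory. -/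
def Prog.lift (τ : Type) : Prog Γ σ → Prog Γ (σ × τ)
  | .push k f => .push k (fun v => f v.1)
  | .pop k f => .pop k (fun v o => (f v.1 o, v.2))
  | .load f => .load (fun v => (f v.1, v.2))
  | .seq p q => .seq (p.lift τ) (q.lift τ)
  | .ite c p q => .ite (fun v => c v.1) (p.lift τ) (q.lift τ)
  | .loop c p => .loop (fun v => c v.1) (p.lift τ)

theorem Prog.Run.lift {p : Prog Γ σ} {v : σ} {S : ∀ k, List (Γ k)} {v' : σ}
    {S' : ∀ k, List (Γ k)} {t : ℕ} (h : Prog.Run p v S v' S' t) (w : τ) :
    Prog.Run (p.lift τ) (v, w) S (v', w) S' t := by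
  induction h with
  | push k f v S => exact Prog.Run.push k _ (v, w) S
  | pop k f v S => exact Prog.Run.pop k _ (v, w) S
  | load f v S => exact Prog.Run.load _ (v, w) S
  | seq _ _ ih1 ih2 => exact Prog.Run.seq ih1 ih2
  | ite_true hc _ ih => exact Prog.Run.ite_true hc ih
  | ite_false hc _ ih => exact Prog.Run.ite_false hc ih
  | loop_false S hc => exact Prog.Run.loop_false S hc
  | loop_true hc _ _ ih1 ih2 => exact Prog.Run.loop_true hc ih1 ih2

/-- empty the stack `k`, using a Boolean flag in the second component -/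
def Prog.clear (k : K) : Prog Γ (σ × Bool) :=
  .seq (.load (fun v => (v.1, true)))
    (.loop (fun v => v.2) (.pop k (fun v o => (v.1, o.isSome))))

theorem Prog.clear_loop_run (k : K) (v : σ) : ∀ (l : List (Γ k)) (S : ∀ k, List (Γ k)),
    S k = l →
    Prog.Run (.loop (fun v => v.2) (.pop k (fun v o => (v.1, o.isSome))) : Prog Γ (σ × Bool))
      (v, true) S (v, false) (update S k []) (1 + 1 + 1 + 2 * l.length)
  | [], S, h => by
    have h1 := Prog.Run.pop (Γ := Γ) k (fun (v : σ × Bool) o => (v.1, o.isSome)) (v, true) S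
    simp only [h, List.head?_nil, Option.isSome_none, List.tail_nil] at h1
    exact Prog.Run.loop_true rfl h1 (Prog.Run.loop_false _ rfl)
  | a :: l, S, h => by
    have h1 := Prog.Run.pop (Γ := Γ) k (fun (v : σ × Bool) o => (v.1, o.isSome)) (v, true) S
    simp only [h, List.head?_cons, Option.isSome_some, List.tail_cons] at h1
    have h2 := Prog.clear_loop_run k v l (update S k l) (by simp)
    rw [Function.update_idem] at h2
    have h3 := Prog.Run.loop_true (c := fun v => v.2) rfl h1 h2
    have e : 1 + 1 + (1 + 1 + 1 + 2 * l.length) = 1 + 1 + 1 + 2 * (a :: l).length := by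
      simp only [List.length_cons]
      omega
    rw [e] at h3
    exact h3

theorem Prog.clear_run (k : K) (v : σ) (b : Bool) (S : ∀ k, List (Γ k)) :
    Prog.Run (.clear k : Prog Γ (σ × Bool)) (v, b) S (v, false) (update S k [])
      (2 * (S k).length + 4) := by
  have h1 := Prog.Run.load (Γ := Γ) (fun (v : σ × Bool) => (v.1, true)) (v, b) S
  have h2 := Prog.Run.seq h1 (Prog.clear_loop_run k v (S k) S rfl)
  have e : 1 + (1 + 1 + 1 + 2 * (S k).length) = 2 * (S k).length + 4 := by omega
  rw [e] at h2
  exact h2

/-- empty all stacks in a list of stacks -/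
def Prog.clearList : List K → Prog Γ (σ × Bool)
  | [] => .load (fun v => (v.1, false))
  | k :: l => .seq (.clear k) (Prog.clearList l)

theorem Prog.clearList_run (v : σ) : ∀ (l : List K) (b : Bool) (S : ∀ k, List (Γ k)),
    l.Nodup →
    Prog.Run (Prog.clearList l : Prog Γ (σ × Bool)) (v, b) S (v, false)
      (fun k => if k ∈ l then [] else S k)
      ((l.map (fun k => 2 * (S k).length + 4)).sum + 1)
  | [], b, S, _ => by
    have h1 := Prog.Run.load (Γ := Γ) (fun (v : σ × Bool) => (v.1, false)) (v, b) S
    simpa [Prog.clearList] using h1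
  | k :: l, b, S, hl => by
    have hk : k ∉ l := (List.nodup_cons.1 hl).1
    have h1 := Prog.clear_run (Γ := Γ) k v b S
    have h2 := Prog.clearList_run v l false (update S k []) (List.nodup_cons.1 hl).2
    have h3 := Prog.Run.seq h1 h2
    have e1 : (fun k' => if k' ∈ l then [] else update S k [] k') =
        (fun k' => if k' ∈ k :: l then [] else S k') := by
      funext k'
      by_cases h : k' = k
      · subst h; simp
      · simp [h]
    have e2 : l.map (fun k' => 2 * (update S k [] k').length + 4) =
        l.map (fun k' => 2 * (S k').length + 4) := by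
      apply List.map_congr_left
      intro k' hk'
      have : k' ≠ k := fun h => hk (h ▸ hk')
      simp [this]
    rw [e1, e2] at h3
    have e : 2 * (S k).length + 4 + ((l.map (fun k' => 2 * (S k').length + 4)).sum + 1) =
        (((k :: l).map (fun k => 2 * (S k).length + 4)).sum + 1) := by
      simp only [List.map_cons, List.sum_cons]
      omega
    rw [e] at h3
    exact h3

/-- total size of the stacks -/
def totalSize [Fintype K] (S : ∀ k, List (Γ k)) : ℕ := ∑ k, (S k).length

theorem totalSize_update [Fintype K] (S : ∀ k, List (Γ k)) (k : K) (l : List (Γ k)) :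
    totalSize (update S k l) + (S k).length = totalSize S + l.length := by
  unfold totalSize
  have e1 := Finset.add_sum_erase Finset.univ (fun x => (update S k l x).length)
    (Finset.mem_univ k)
  have e2 := Finset.add_sum_erase Finset.univ (fun x => (S x).length) (Finset.mem_univ k)
  rw [← e1, ← e2]
  have : ∑ x ∈ Finset.univ.erase k, (update S k l x).length =
      ∑ x ∈ Finset.univ.erase k, (S x).length := by
    apply Finset.sum_congr rfl
    intro x hx
    have : x ≠ k := (Finset.mem_erase.1 hx).1
    simp [this]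
  rw [this]
  simp
  omega

theorem Prog.Run.size_le [Fintype K] {p : Prog Γ σ} {v : σ} {S : ∀ k, List (Γ k)} {v' : σ}
    {S' : ∀ k, List (Γ k)} {t : ℕ} (h : Prog.Run p v S v' S' t) :
    totalSize S' ≤ totalSize S + t := by
  induction h with
  | push k f v S =>
    have := totalSize_update S k (f v :: S k)
    simp only [List.length_cons] at this
    omega
  | pop k f v S =>
    have := totalSize_update S k (S k).tail
    simp only [List.length_tail] at this
    omega
  | load f v S => omega
  | seq _ _ ih1 ih2 => omega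
  | ite_true hc _ ih => omega
  | ite_false hc _ ih => omega
  | loop_false S hc => omega
  | loop_true hc _ _ ih1 ih2 => omega

end Lift

section Decide

variable {K : Type} [DecidableEq K] [Fintype K] {Γ : K → Type} {σ : Type}

/-- Run `p`, then clear all stacks, write the answer `acc v` on stack `k₁` and reset the
memory to `v₀`. -/
noncomputable def Prog.decider (p : Prog Γ σ) (v₀ : σ) (k₁ : K) (acc : σ → Γ k₁) :
    Prog Γ (σ × Bool) :=
  .seq (p.lift Bool) (.seq (Prog.clearList (Finset.univ : Finset K).toList)
    (.seq (.push k₁ (fun v => acc v.1)) (.load (fun _ => (v₀, false)))))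

theorem Prog.decider_run (p : Prog Γ σ) (v₀ : σ) (k₁ : K) (acc : σ → Γ k₁)
    {v : σ} {S : ∀ k, List (Γ k)} {v' : σ} {S' : ∀ k, List (Γ k)} {t : ℕ}
    (h : Prog.Run p v S v' S' t) :
    ∃ T, T ≤ 3 * t + 2 * totalSize S + 4 * Fintype.card K + 3 ∧
      Prog.Run (p.decider v₀ k₁ acc) (v, false) S (v₀, false)
        (update (fun _ => []) k₁ [acc v']) T := by
  have h1 := h.lift false
  have h2 := Prog.clearList_run (Γ := Γ) v' (Finset.univ : Finset K).toList false S'
    (Finset.nodup_toList _)
  have e1 : (fun k => if k ∈ (Finset.univ : Finset K).toList then [] else S' k) =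
      (fun k => ([] : List (Γ k))) := by
    funext k; simp
  rw [e1] at h2
  have h3 := Prog.Run.push (Γ := Γ) k₁ (fun (v : σ × Bool) => acc v.1) (v', false)
    (fun _ => [])
  have h4 := Prog.Run.load (Γ := Γ) (fun (_ : σ × Bool) => (v₀, false)) (v', false)
    (update (fun _ => []) k₁ [acc v'])
  refine ⟨_, ?_, Prog.Run.seq h1 (Prog.Run.seq h2 (Prog.Run.seq h3 h4))⟩
  have e2 : ((Finset.univ : Finset K).toList.map (fun k => 2 * (S' k).length + 4)).sum =
      2 * totalSize S' + 4 * Fintype.card K := by
    rw [Finset.sum_map_toList]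
    unfold totalSize
    rw [Finset.sum_add_distrib, Finset.mul_sum]
    simp [mul_comm]
  have e3 := h.size_le
  rw [e2]
  omega

/-- Polynomial-time decision procedures from structured programs. -/
noncomputable def Prog.decidable {α αΓ : Type} [Fintype σ] (ea : α → List αΓ)
    (f : α → Bool) (v₀ : σ) (k₀ k₁ : K) [Fintype (Γ k₀)] (p : Prog Γ σ)
    (e₀ : Γ k₀ ≃ αΓ) (e₁ : Γ k₁ ≃ Bool) (acc : σ → Bool) (q : Polynomial ℕ)
    (h : ∀ a, ∃ t v' S', t ≤ q.eval (ea a).length ∧ acc v' = f a ∧
      Prog.Run p v₀ (update (fun _ => []) k₀ ((ea a).map e₀.symm)) v' S' t) :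
    TM2ComputableInPolyTime ea encodeBool f :=
  Prog.computable ea encodeBool f (v₀, false) k₀ k₁
    (p.decider v₀ k₁ (fun v => e₁.symm (acc v))) e₀ e₁
    (3 * q + 2 * Polynomial.X + ((4 * Fintype.card K + 3 : ℕ) : Polynomial ℕ)) (by
      intro a
      obtain ⟨t, v', S', ht, hv, hr⟩ := h a
      obtain ⟨T, hT, hR⟩ := Prog.decider_run p v₀ k₁ (fun v => e₁.symm (acc v)) hr
      refine ⟨T, ?_, ?_⟩
      · have : totalSize (update (fun k => ([] : List (Γ k))) k₀ ((ea a).map e₀.symm)) =
            (ea a).length := by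
          have := totalSize_update (fun k => ([] : List (Γ k))) k₀ ((ea a).map e₀.symm)
          simpa [totalSize] using this
        rw [this] at hT
        simp only [Polynomial.eval_add, Polynomial.eval_mul, Polynomial.eval_X,
          Polynomial.eval_ofNat, Polynomial.eval_natCast, Nat.cast_id]
        omega
      · rw [← hv]
        exact hR)

end Decide

end Pool.Agent.Helper32_Poly
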